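import Mathlib

/-! Cardinality of dense sets in algebras generated by copies of a separable algebra. -/

set_option autoImplicit false

namespace Pool.Agent.W659.FPw

open Cardinal Set TopologicalSpace

/-- complex scalars with rational coordinates -/
def qi (B : Type) [CStarAlgebra B] : Set B :=
  Set.range fun p : ℚ × ℚ => ((p.1 : ℂ) + (p.2 : ℂ) * Complex.I) • (1 : B)

theorem dense_qi : DenseRange fun p : ℚ × ℚ => (p.1 : ℂ) + (p.2 : ℂ) * Complex.I := by
  have h1 : DenseRange (fun p : ℚ × ℚ => ((p.1 : ℝ), (p.2 : ℝ))) :=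
    Rat.isDenseEmbedding_coe_real.dense.prodMap Rat.isDenseEmbedding_coe_real.dense
  have h2 : Function.Surjective (fun p : ℝ × ℝ => (p.1 : ℂ) + (p.2 : ℂ) * Complex.I) := by
    intro z
    exact ⟨(z.re, z.im), Complex.re_add_im z⟩
  have h3 : Continuous (fun p : ℝ × ℝ => (p.1 : ℂ) + (p.2 : ℂ) * Complex.I) := by fun_prop
  have h4 := h2.denseRange.comp h1 h3
  refine h4.mono ?_
  rintro _ ⟨p, rfl⟩
  exact ⟨p, by simp⟩

/-- A C*-algebra generated by `κ` copies of a separable C*-algebra has a dense set of cardinality at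
most `max κ ℵ₀`. -/
theorem exists_dense {κ D B : Type} [CStarAlgebra D] [SeparableSpace D] [CStarAlgebra B]
    (e : κ → D →⋆ₐ[ℂ] B) (hg : (⨆ j, (e j).range).topologicalClosure = (⊤ : StarSubalgebra ℂ B)) :
    ∃ S : Set B, Dense S ∧ #S ≤ max #κ ℵ₀ := by
  obtain ⟨C, hC, hCd⟩ := exists_countable_dense D
  let X : Set B := ⋃ j, (e j) '' C
  let S : Subalgebra ℤ B := Algebra.adjoin ℤ (qi B ∪ X)
  refine ⟨(S : Set B), ?_, ?_⟩
  · have hq : ∀ c : ℂ, c • (1 : B) ∈ closure (S : Set B) := by
      intro c
      have h1 : Continuous fun c : ℂ => c • (1 : B) := by fun_prop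
      have h2 := h1.range_subset_closure_image_dense dense_qi
      refine closure_mono ?_ (h2 ⟨c, rfl⟩)
      rintro _ ⟨_, ⟨p, rfl⟩, rfl⟩
      exact Algebra.subset_adjoin (Or.inl ⟨p, rfl⟩)
    have hx : ∀ j x, e j x ∈ closure (S : Set B) := by
      intro j x
      have h1 : Continuous (e j) := AddMonoidHomClass.continuous_of_bound (e j) 1 fun x => by
        simpa using NonUnitalStarAlgHom.norm_apply_le (e j) x
      have h2 := h1.range_subset_closure_image_dense hCd
      refine closure_mono ?_ (h2 ⟨x, rfl⟩)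
      rintro _ ⟨y, hy, rfl⟩
      exact Algebra.subset_adjoin (Or.inr (Set.mem_iUnion.2 ⟨j, y, hy, rfl⟩))
    have hmul : ∀ x ∈ closure (S : Set B), ∀ y ∈ closure (S : Set B),
        x * y ∈ closure (S : Set B) := fun x hx y hy =>
      map_mem_closure₂ continuous_mul hx hy fun a ha b hb => mul_mem ha hb
    have hadd : ∀ x ∈ closure (S : Set B), ∀ y ∈ closure (S : Set B),
        x + y ∈ closure (S : Set B) := fun x hx y hy =>
      map_mem_closure₂ continuous_add hx hy fun a ha b hb => add_mem ha hb
    have key : ∀ x ∈ Algebra.adjoin ℂ (⋃ j, Set.range (e j)), x ∈ closure (S : Set B) := by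
      intro x hx'
      induction hx' using Algebra.adjoin_induction with
      | mem x h =>
        obtain ⟨j, y, rfl⟩ := Set.mem_iUnion.1 h
        exact hx j y
      | algebraMap c =>
        rw [Algebra.algebraMap_eq_smul_one]
        exact hq c
      | add x y _ _ h1 h2 => exact hadd x h1 y h2
      | mul x y _ _ h1 h2 => exact hmul x h1 y h2
    intro b
    have hb : b ∈ (⨆ j, (e j).range).topologicalClosure := by rw [hg]; trivial
    have hb' : b ∈ closure ((⨆ j, (e j).range : StarSubalgebra ℂ B) : Set B) := hb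
    have hsub : ((⨆ j, (e j).range : StarSubalgebra ℂ B) : Set B) ⊆ closure (S : Set B) := by
      intro x hx'
      refine key x ?_
      have hle : (⨆ j, (e j).range) ≤ StarAlgebra.adjoin ℂ (⋃ j, Set.range (e j)) := by
        refine iSup_le fun j => ?_
        rintro x ⟨y, rfl⟩
        exact StarAlgebra.subset_adjoin ℂ _ (Set.mem_iUnion.2 ⟨j, y, rfl⟩)
      have h1 := hle hx'
      have h2 : x ∈ (StarAlgebra.adjoin ℂ (⋃ j, Set.range (e j))).toSubalgebra := h1
      rw [StarAlgebra.adjoin_toSubalgebra] at h2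
      have h3 : star (⋃ j, Set.range (e j)) ⊆ ⋃ j, Set.range (e j) := by
        intro z hz
        obtain ⟨j, y, hy⟩ := Set.mem_iUnion.1 (Set.mem_star.1 hz)
        refine Set.mem_iUnion.2 ⟨j, star y, ?_⟩
        rw [map_star, hy, star_star]
      rwa [Set.union_eq_self_of_subset_right h3] at h2
    exact closure_minimal hsub isClosed_closure hb'
  · have h1 : #(S : Set B) ≤ max (max #ℤ #(qi B ∪ X : Set B)) ℵ₀ :=
      Algebra.cardinalMk_adjoin_le ℤ (qi B ∪ X)
    refine h1.trans ?_
    refine max_le (max_le ?_ ?_) (le_max_right _ _)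
    · rw [Cardinal.mk_eq_aleph0 ℤ]
      exact le_max_right _ _
    · refine (mk_union_le _ _).trans ?_
      have h2 : #(qi B) ≤ ℵ₀ := (Set.countable_range _).le_aleph0
      have h3 : #X ≤ max #κ ℵ₀ := by
        refine (mk_iUnion_le _).trans ?_
        refine (Cardinal.mul_le_max _ _).trans ?_
        refine max_le (max_le (le_max_left _ _) ?_) (le_max_right _ _)
        refine ciSup_le' fun j => ?_
        exact ((hC.image _).le_aleph0).trans (le_max_right _ _)
      exact (add_le_add (h2.trans (le_max_right _ _)) h3).trans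
        (Cardinal.add_eq_self (le_max_right _ _)).le

end Pool.Agent.W659.FPw
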