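import Pool.Agent.H898R3.Mix
import Pool.Agent.H923R2.FZ.All
import Pool.Agent.H308R2.CF.All
import Pool.Agent.H308R2.CF.TGTR
import Pool.Agent.H308R2.CF.TGMOM
import Pool.Agent.H308R2.CF.TGST
import Pool.Agent.H308R2.CF.TGRED
import Pool.Agent.W659.FPw.Dens

/-! Reduced free powers of `(C([0,1]), ∫)` over arbitrary index sets. -/

set_option autoImplicit false

open scoped ComplexConjugate ComplexOrder
open Cardinal

noncomputable section

namespace Pool.Agent.W659.FPw

open Pool.Agent.H308R2.CF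
open Pool.Agent.H923R2
open Pool.Agent.H770R2.UL (TrSt n2)

section basic

variable {κ A : Type} [CStarAlgebra A] {φ : TrSt A} {σ : κ → CI →⋆ₐ[ℂ] A}

theorem nontriv (φ : TrSt A) : Nontrivial A := by
  refine ⟨⟨1, 0, fun h => ?_⟩⟩
  have h1 : φ.toFun 1 = 1 := φ.one
  rw [h, map_zero] at h1
  exact zero_ne_one h1

/-- the trace of a product of two group elements -/
theorem tr_star_mul (h : FSG φ σ) (v w : FreeGroup κ) (hvw : v ≠ w) :
    φ.toFun (star (gp σ v : A) * (gp σ w : A)) = 0 := by
  have h1 := h.sys.free (v⁻¹ * w) (by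
    intro h2
    exact hvw (inv_mul_eq_one.1 h2))
  rw [map_mul, map_inv] at h1
  exact h1

theorem tr_star_self (φ : TrSt A) (σ : κ → CI →⋆ₐ[ℂ] A) (v : FreeGroup κ) :
    φ.toFun (star (gp σ v : A) * (gp σ v : A)) = 1 := by
  rw [Unitary.star_mul_self_of_mem (gp σ v).2]
  exact φ.one

/-- different group elements have distance at least one -/
theorem dist_gp (h : FSG φ σ) (v w : FreeGroup κ) (hvw : v ≠ w) :
    1 ≤ ‖(gp σ v : A) - (gp σ w : A)‖ := by
  have h1 := φ.bdd (star ((gp σ v : A) - (gp σ w : A)) * ((gp σ v : A) - (gp σ w : A)))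
  have h2 : φ.toFun (star ((gp σ v : A) - (gp σ w : A)) * ((gp σ v : A) - (gp σ w : A))) = 2 := by
    have h3 : star ((gp σ v : A) - (gp σ w : A)) * ((gp σ v : A) - (gp σ w : A)) =
        star (gp σ v : A) * (gp σ v : A) - star (gp σ v : A) * (gp σ w : A) -
        star (gp σ w : A) * (gp σ v : A) + star (gp σ w : A) * (gp σ w : A) := by
      rw [star_sub]; noncomm_ring
    rw [h3, map_add, map_sub, map_sub, tr_star_self, tr_star_self, tr_star_mul h v w hvw,
      tr_star_mul h w v hvw.symm]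
    norm_num
  rw [h2, CStarRing.norm_star_mul_self] at h1
  have h4 : (2 : ℝ) ≤ ‖(gp σ v : A) - (gp σ w : A)‖ * ‖(gp σ v : A) - (gp σ w : A)‖ := by
    simpa using h1
  nlinarith [norm_nonneg ((gp σ v : A) - (gp σ w : A))]

/-- dense sets are at least as large as the index set -/
theorem card_le_dense (h : FSG φ σ) (S : Set A) (hS : Dense S) : #κ ≤ #S := by
  have h1 : ∀ j : κ, ∃ s : S, ‖(gp σ (FreeGroup.of j) : A) - s‖ < 1 / 2 := by
    intro j
    obtain ⟨s, hs, h2⟩ := Metric.mem_closure_iff.1 (hS (gp σ (FreeGroup.of j) : A)) (1 / 2)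
      (by norm_num)
    exact ⟨⟨s, hs⟩, by rwa [dist_eq_norm] at h2⟩
  choose f hf using h1
  refine mk_le_of_injective (f := f) ?_
  intro i j hij
  by_contra hne
  have h2 := dist_gp h (FreeGroup.of i) (FreeGroup.of j) fun h3 => hne (FreeGroup.of_injective h3)
  have h3 : ‖(gp σ (FreeGroup.of i) : A) - (gp σ (FreeGroup.of j) : A)‖ ≤
      ‖(gp σ (FreeGroup.of i) : A) - f i‖ + ‖(gp σ (FreeGroup.of j) : A) - f j‖ := by
    have h4 : (gp σ (FreeGroup.of i) : A) - (gp σ (FreeGroup.of j) : A) =
        ((gp σ (FreeGroup.of i) : A) - f i) - ((gp σ (FreeGroup.of j) : A) - f j) := by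
      rw [hij]; abel
    rw [h4]
    exact norm_sub_le _ _
  linarith [hf i, hf j]

/-- elements are limits of elements of the algebra generated by the copies -/
theorem mem_cl (h : FSG φ σ) (b : A) :
    b ∈ closure (Algebra.adjoin ℂ (⋃ j, Set.range (σ j)) : Set A) := by
  have hb : b ∈ (⨆ j, (σ j).range).topologicalClosure := by
    have : Cs σ = ⊤ := h.gen
    rw [Cs] at this
    rw [this]; trivial
  have hb' : b ∈ closure ((⨆ j, (σ j).range : StarSubalgebra ℂ A) : Set A) := hb
  refine closure_mono ?_ hb'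
  intro x hx'
  have hle : (⨆ j, (σ j).range) ≤ StarAlgebra.adjoin ℂ (⋃ j, Set.range (σ j)) := by
    refine iSup_le fun j => ?_
    rintro x ⟨y, rfl⟩
    exact StarAlgebra.subset_adjoin ℂ _ (Set.mem_iUnion.2 ⟨j, y, rfl⟩)
  have h1 := hle hx'
  have h2 : x ∈ (StarAlgebra.adjoin ℂ (⋃ j, Set.range (σ j))).toSubalgebra := h1
  rw [StarAlgebra.adjoin_toSubalgebra] at h2
  have h3 : star (⋃ j, Set.range (σ j)) ⊆ ⋃ j, Set.range (σ j) := by
    intro z hz
    obtain ⟨j, y, hy⟩ := Set.mem_iUnion.1 (Set.mem_star.1 hz)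
    refine Set.mem_iUnion.2 ⟨j, star y, ?_⟩
    rw [map_star, hy, star_star]
  rwa [Set.union_eq_self_of_subset_right h3] at h2

/-- an element commuting with the copies is central -/
theorem central_of (h : FSG φ σ) (y : A) (hy : ∀ j f, σ j f * y = y * σ j f) (x : A) :
    x * y = y * x := by
  have hcl : IsClosed {x : A | x * y = y * x} :=
    isClosed_eq (continuous_id.mul continuous_const) (continuous_const.mul continuous_id)
  refine closure_minimal ?_ hcl (mem_cl h x)
  intro z hz
  induction hz using Algebra.adjoin_induction with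
  | mem x h =>
    obtain ⟨j, f, rfl⟩ := Set.mem_iUnion.1 h
    exact hy j f
  | algebraMap c => exact Algebra.commutes c y
  | add a b _ _ h1 h2 =>
    have h1' : a * y = y * a := h1
    have h2' : b * y = y * b := h2
    show (a + b) * y = y * (a + b)
    rw [add_mul, mul_add, h1', h2']
  | mul a b _ _ h1 h2 =>
    have h1' : a * y = y * a := h1
    have h2' : b * y = y * b := h2
    show a * b * y = y * (a * b)
    rw [mul_assoc, h2', ← mul_assoc, h1', mul_assoc]

/-- at most one copy: commutative -/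
theorem comm_of_subsingleton [Subsingleton κ] (h : FSG φ σ) (x y : A) : x * y = y * x := by
  refine central_of h y (fun j f => ?_) x
  refine (central_of h (σ j f) (fun i g => ?_) y).symm
  obtain rfl := Subsingleton.elim i j
  rw [← map_mul, ← map_mul, mul_comm]

/-- two copies: not commutative -/
theorem not_comm (h : FSG φ σ) {i j : κ} (hij : i ≠ j) : ¬ ∀ x y : A, x * y = y * x := by
  intro hc
  have h0 : (FreeGroup.of i * FreeGroup.of j : FreeGroup κ) ≠ FreeGroup.of j * FreeGroup.of i := by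
    intro h1
    classical
    have h2 := congrArg (FreeGroup.lift fun k : κ =>
      if k = i then (Equiv.swap (0 : Fin 3) 1) else Equiv.swap (1 : Fin 3) 2) h1
    rw [map_mul, map_mul, FreeGroup.lift_apply_of, FreeGroup.lift_apply_of, if_pos rfl, if_neg hij.symm] at h2
    revert h2
    decide
  have h1 := dist_gp h _ _ h0
  rw [map_mul, map_mul] at h1
  have h2 : ((gp σ (FreeGroup.of i) * gp σ (FreeGroup.of j) : unitary A) : A) =
      ((gp σ (FreeGroup.of j) * gp σ (FreeGroup.of i) : unitary A) : A) := hc _ _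
  rw [h2, sub_self, norm_zero] at h1
  linarith

/-- no copy: scalars -/
theorem scalar_of_empty [IsEmpty κ] (h : FSG φ σ) (x : A) : ∃ c : ℂ, x = c • (1 : A) := by
  have h1 := mem_cl h x
  rw [Set.iUnion_of_empty, Algebra.adjoin_empty] at h1
  have h2 : IsClosed (((⊥ : Subalgebra ℂ A)) : Set A) := by
    have h3 : (((⊥ : Subalgebra ℂ A)) : Set A) = ((Submodule.span ℂ {(1 : A)} : Submodule ℂ A) : Set A) := by
      ext z
      rw [SetLike.mem_coe, SetLike.mem_coe, Algebra.mem_bot, Submodule.mem_span_singleton]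
      constructor
      · rintro ⟨c, rfl⟩
        exact ⟨c, (Algebra.algebraMap_eq_smul_one c).symm⟩
      · rintro ⟨c, rfl⟩
        exact ⟨c, Algebra.algebraMap_eq_smul_one c⟩
    rw [h3]
    exact Submodule.closed_of_finiteDimensional _
  rw [h2.closure_eq] at h1
  obtain ⟨c, hc⟩ := Algebra.mem_bot.1 h1
  exact ⟨c, by rw [← hc, Algebra.algebraMap_eq_smul_one]⟩

/-- one copy: not only scalars -/
theorem not_scalar (h : FSG φ σ) (i : κ) : ¬ ∀ x : A, ∃ c : ℂ, x = c • (1 : A) := by
  intro hc
  obtain ⟨c, h1⟩ := hc (gp σ (FreeGroup.of i) : A)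
  have h2 := h.sys.free (FreeGroup.of i) (FreeGroup.of_ne_one i)
  rw [h1, map_smul, φ.one, smul_eq_mul, mul_one] at h2
  rw [h2, zero_smul] at h1
  have h3 := dist_gp h (FreeGroup.of i) 1 (FreeGroup.of_ne_one i)
  have h4 := tr_star_self φ σ (FreeGroup.of i)
  rw [h1, star_zero, zero_mul, map_zero] at h4
  exact zero_ne_one h4

end basic

end Pool.Agent.W659.FPw
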